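import Pool.Agent.helper41.G5.SpecG

/-!
# Project d2: row gCNT (number of touchings)
-/

set_option autoImplicit false

open Filter Topology MeasureTheory

namespace Pool.Agent.helper90.DH

open Pool.Agent.helper64.D2

/-- A set of elements of `Fin n` at mutual distance at most `2` has at most `3` elements. -/
lemma gCNT_card {n : ℕ} (A : Set (Fin n)) (h : ∀ a ∈ A, ∀ b ∈ A, (b : ℕ) ≤ (a : ℕ) + 2) : A.ncard ≤ 3 := by
  classical
  rcases A.eq_empty_or_nonempty with hA | hA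
  · simp [hA]
  · obtain ⟨m, hm, hmin⟩ : ∃ m ∈ A, ∀ b ∈ A, (m : ℕ) ≤ b := by
      obtain ⟨m, hm, hmin⟩ := Set.exists_min_image A (fun a => (a : ℕ)) A.toFinite hA
      exact ⟨m, hm, hmin⟩
    have himg : ((fun a : Fin n => (a : ℕ)) '' A).ncard = A.ncard := Set.ncard_image_of_injective A Fin.val_injective
    rw [← himg]
    have hsub : ((fun a : Fin n => (a : ℕ)) '' A) ⊆ ((Finset.Icc (m : ℕ) ((m : ℕ) + 2) : Finset ℕ) : Set ℕ) := by
      rintro _ ⟨b, hb, rfl⟩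
      simp only [Finset.coe_Icc, Set.mem_Icc]
      exact ⟨hmin b hb, h m hm b hb⟩
    calc ((fun a : Fin n => (a : ℕ)) '' A).ncard ≤ ((Finset.Icc (m : ℕ) ((m : ℕ) + 2) : Finset ℕ) : Set ℕ).ncard :=
          Set.ncard_le_ncard hsub (Finset.finite_toSet _)
      _ = (Finset.Icc (m : ℕ) ((m : ℕ) + 2)).card := Set.ncard_coe_finset _
      _ = 3 := by rw [Nat.card_Icc]; omega
      _ ≤ 3 := le_refl 3

lemma gCNT_mono {C : ℝ → ℝ} (h : NL C) {x y r : ℝ} (hr : 0 ≤ r) (hxy : y - x ≤ r) : C y - C x ≤ 11 / 10 * r := by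
  rcases le_total x y with h1 | h1
  · have := (h x y h1).2
    nlinarith
  · have := (h y x h1).1
    nlinarith

lemma gCNT_inv {C : ℝ → ℝ} (h : NL C) {x y r : ℝ} (hr : 0 ≤ r) (hxy : C y - C x ≤ r) : y - x ≤ 10 / 9 * r := by
  rcases le_total x y with h1 | h1
  · have := (h x y h1).1
    nlinarith
  · nlinarith

/-- **gCNT**. -/
theorem gCNT : gCNT_stmt := by
  intro ι u p N C hNL hC
  have h2 : (0 : ℝ) < 2 ^ u := by positivity
  constructor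
  · intro i z
    apply gCNT_card
    rintro j ⟨-, x, hx, o, ho, hxj⟩ j' ⟨-, x', hx', o', ho', hxj'⟩
    simp only [cell, Set.mem_Ico] at hx hxj hx' hxj'
    have h3 : x' - x ≤ 1 / 2 ^ u := by
      have h4 : ((((2 * (z : ℕ) + p : ℕ) : ℤ) : ℝ) + 1) / 2 ^ u - (((2 * (z : ℕ) + p : ℕ) : ℤ) : ℝ) / 2 ^ u = 1 / 2 ^ u := by
        field_simp
        ring
      linarith [hx.1, hx'.2]
    have h5 := gCNT_mono (hNL i o) (by positivity) h3
    have h6 := (abs_le.1 (hC i o' ho' o ho x')).2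
    have h7 : (((j' : ℕ) : ℤ) : ℝ) / 2 ^ u < ((((j : ℕ) : ℤ) : ℝ) + 1) / 2 ^ u + 11 / 10 * (1 / 2 ^ u) + 1 / (20 * 2 ^ u) := by
      linarith [hxj'.1, hxj.2]
    have h8 : ((((j : ℕ) : ℤ) : ℝ) + 1) / 2 ^ u + 11 / 10 * (1 / 2 ^ u) + 1 / (20 * 2 ^ u) = (((((j : ℕ) : ℤ) : ℝ)) + 1 + 11 / 10 + 1 / 20) / 2 ^ u := by
      field_simp
    rw [h8, div_lt_div_iff_of_pos_right h2] at h7
    have h9 : ((j' : ℕ) : ℝ) < ((j : ℕ) : ℝ) + 3 := by
      push_cast at h7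
      linarith
    have h10 : (j' : ℕ) < (j : ℕ) + 3 := by exact_mod_cast h9
    omega
  · intro i j
    apply gCNT_card
    rintro z ⟨-, x, hx, o, ho, hxj⟩ z' ⟨-, x', hx', o', ho', hxj'⟩
    simp only [cell, Set.mem_Ico] at hx hxj hx' hxj'
    have h6 := (abs_le.1 (hC i o ho o' ho' x')).2
    have h3 : C i o x' - C i o x ≤ 21 / 20 * (1 / 2 ^ u) := by
      have h4 : ((((j : ℕ) : ℤ) : ℝ) + 1) / 2 ^ u - (((j : ℕ) : ℤ) : ℝ) / 2 ^ u = 1 / 2 ^ u := by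
        field_simp
        ring
      have h5 : (1 : ℝ) / (20 * 2 ^ u) = 1 / 20 * (1 / 2 ^ u) := by
        field_simp
      linarith [hxj.1, hxj'.2]
    have h5 := gCNT_inv (hNL i o) (by positivity) h3
    have h7 : (((2 * (z' : ℕ) + p : ℕ) : ℤ) : ℝ) / 2 ^ u < ((((2 * (z : ℕ) + p : ℕ) : ℤ) : ℝ) + 1) / 2 ^ u + 10 / 9 * (21 / 20 * (1 / 2 ^ u)) := by
      linarith [hx'.1, hx.2]
    have h8 : ((((2 * (z : ℕ) + p : ℕ) : ℤ) : ℝ) + 1) / 2 ^ u + 10 / 9 * (21 / 20 * (1 / 2 ^ u)) = ((((2 * (z : ℕ) + p : ℕ) : ℤ) : ℝ) + 1 + 10 / 9 * (21 / 20)) / 2 ^ u := by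
      field_simp
    rw [h8, div_lt_div_iff_of_pos_right h2] at h7
    have h9 : ((z' : ℕ) : ℝ) < ((z : ℕ) : ℝ) + 3 := by
      push_cast at h7
      linarith
    have h10 : (z' : ℕ) < (z : ℕ) + 3 := by exact_mod_cast h9
    omega

end Pool.Agent.helper90.DH
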