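import Pool.Agent.helper41.G5.SpecG

/-!
# Project d2: row gPRI (the continuous average)
-/

set_option autoImplicit false

open Filter Topology MeasureTheory

namespace Pool.Agent.helper90.DH

open Pool.Agent.helper64.D2

lemma gPRI_mem (s : ℕ) (x : ℝ) : x ∈ cell s ⌊(2 : ℝ) ^ s * x⌋ := by
  have h2 : (0 : ℝ) < 2 ^ s := by positivity
  refine ⟨?_, ?_⟩
  · rw [div_le_iff₀ h2]
    linarith [Int.floor_le ((2 : ℝ) ^ s * x), mul_comm x ((2 : ℝ) ^ s)]
  · rw [lt_div_iff₀ h2]
    linarith [Int.lt_floor_add_one ((2 : ℝ) ^ s * x), mul_comm x ((2 : ℝ) ^ s)]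

/-- Piecewise affine functions are right continuous. -/
lemma gPRI_rc {s : ℕ} {f : ℝ → ℝ} (hf : PA s f) (z : ℝ) : ContinuousWithinAt f (Set.Ici z) z := by
  have hz := gPRI_mem s z
  obtain ⟨a, b, hab⟩ := hf ⌊(2 : ℝ) ^ s * z⌋
  have h1 : ContinuousWithinAt (fun x => a + b * x) (Set.Ici z) z := by fun_prop
  refine h1.congr_of_eventuallyEq ?_ (hab z hz)
  have h3 : Set.Ico z (((⌊(2 : ℝ) ^ s * z⌋ : ℝ) + 1) / 2 ^ s) ∈ 𝓝[≥] z := Ico_mem_nhdsGE hz.2
  filter_upwards [h3] with x hx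
  exact hab x ⟨le_trans hz.1 hx.1, hx.2⟩

/-- Cauchy-Schwarz on an interval. -/
lemma gPRI_cs {g : ℝ → ℝ} {a b : ℝ} (hab : a ≤ b) (h1 : IntervalIntegrable g volume a b) (h2 : IntervalIntegrable (fun x => g x ^ 2) volume a b) :
    (∫ x in a..b, g x) ^ 2 ≤ (b - a) * ∫ x in a..b, g x ^ 2 := by
  rcases eq_or_lt_of_le hab with h | h
  · rw [← h]
    simp
  · set I := ∫ x in a..b, g x with hI
    set m := I / (b - a) with hm
    have hpos : 0 < b - a := by linarith
    have h3 : (0 : ℝ) ≤ ∫ x in a..b, (g x - m) ^ 2 := intervalIntegral.integral_nonneg hab (fun x _ => sq_nonneg _)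
    have h4 : ∫ x in a..b, (g x - m) ^ 2 = (∫ x in a..b, g x ^ 2) - 2 * m * I + m ^ 2 * (b - a) := by
      have h5 : ∀ x, (g x - m) ^ 2 = g x ^ 2 - 2 * m * g x + m ^ 2 := fun x => by ring
      simp_rw [h5]
      rw [intervalIntegral.integral_add (h2.sub (h1.const_mul _)) intervalIntegrable_const,
        intervalIntegral.integral_sub h2 (h1.const_mul _), intervalIntegral.integral_const_mul, intervalIntegral.integral_const, smul_eq_mul]
      ring
    rw [h4] at h3
    have h6 : m * (b - a) = I := by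
      rw [hm]
      field_simp
    have h7 : 0 ≤ (b - a) * ((∫ x in a..b, g x ^ 2) - 2 * m * I + m ^ 2 * (b - a)) := mul_nonneg hpos.le h3
    nlinarith [h7, h6]

/-- Change of variables. -/
lemma gPRI_cv {p F : ℝ → ℝ} (hp : Differentiable ℝ p) (hinj : Function.Injective p) (hsur : Function.Surjective p) (hd : ∀ x, 9 / 10 ≤ deriv p x) (hF : Continuous F)
    (hFs : HasCompactSupport F) : nsq (fun x => F (p x)) ≤ 10 / 9 * nsq F := by
  have hpc : Continuous p := hp.continuous
  have h1 : ∫ x in p '' Set.univ, F x ^ 2 = ∫ x in Set.univ, |deriv p x| • (F (p x)) ^ 2 :=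
    integral_image_eq_integral_abs_deriv_smul MeasurableSet.univ (fun x _ => (hp x).hasDerivAt.hasDerivWithinAt) hinj.injOn (fun x => F x ^ 2)
  rw [Set.image_univ, hsur.range_eq, setIntegral_univ, setIntegral_univ] at h1
  have h2 : 9 / 10 * nsq (fun x => F (p x)) ≤ nsq F := by
    unfold nsq
    rw [h1, ← integral_const_mul]
    have hi : Integrable (fun x => F x ^ 2) volume := by
      have : HasCompactSupport (fun x => F x ^ 2) := by
        have h3 := hFs.comp_left (g := fun t : ℝ => t ^ 2) (by simp)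
        exact h3
      exact (hF.pow 2).integrable_of_hasCompactSupport this
    have hi2 : Integrable (fun x => |deriv p x| • (F (p x)) ^ 2) volume := by
      have h3 := (integrableOn_image_iff_integrableOn_abs_deriv_smul MeasurableSet.univ (fun x _ => (hp x).hasDerivAt.hasDerivWithinAt) hinj.injOn (fun x => F x ^ 2)).1
        (by rw [Set.image_univ, hsur.range_eq, integrableOn_univ]; exact hi)
      rwa [integrableOn_univ] at h3
    apply integral_mono_of_nonneg (Eventually.of_forall fun x => by positivity) hi2 (Eventually.of_forall fun x => ?_)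
    simp only [smul_eq_mul]
    have h4 : 9 / 10 ≤ |deriv p x| := le_trans (hd x) (le_abs_self _)
    exact mul_le_mul_of_nonneg_right h4 (sq_nonneg _)
  linarith

/-- The primitive. -/
noncomputable def gPRI_F (f : ℝ → ℝ) (z : ℝ) : ℝ := ∫ t in (0 : ℝ)..z, f t

lemma gPRI_F_cont {f : ℝ → ℝ} (hi : Integrable f volume) : Continuous (gPRI_F f) :=
  intervalIntegral.continuous_primitive (fun _ _ => hi.intervalIntegrable) 0

lemma gPRI_F_deriv {s : ℕ} {f : ℝ → ℝ} (hf : PA s f) (hm : Measurable f) (hi : Integrable f volume) (z : ℝ) : HasDerivWithinAt (gPRI_F f) (f z) (Set.Ioi z) z := by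
  have h1 : HasDerivWithinAt (gPRI_F f) (f z) (Set.Ici z) z := by
    apply intervalIntegral.integral_hasDerivWithinAt_right hi.intervalIntegrable (t := Set.Ioi z)
    · exact hm.stronglyMeasurable.stronglyMeasurableAtFilter
    · exact (gPRI_rc hf z).mono Set.Ioi_subset_Ici_self
  exact h1.mono Set.Ioi_subset_Ici_self

/-- The primitive vanishes at the grid points. -/
lemma gPRI_F_grid {s : ℕ} {f : ℝ → ℝ} (hi : Integrable f volume) (h0 : ∀ k : ℤ, (∫ t in cell s k, f t) = 0) (k : ℤ) : gPRI_F f ((k : ℝ) / 2 ^ s) = 0 := by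
  have hstep : ∀ k : ℤ, gPRI_F f (((k : ℝ) + 1) / 2 ^ s) = gPRI_F f ((k : ℝ) / 2 ^ s) := by
    intro k
    have h1 : gPRI_F f ((k : ℝ) / 2 ^ s) + ∫ t in ((k : ℝ) / 2 ^ s)..(((k : ℝ) + 1) / 2 ^ s), f t = gPRI_F f (((k : ℝ) + 1) / 2 ^ s) :=
      intervalIntegral.integral_add_adjacent_intervals hi.intervalIntegrable hi.intervalIntegrable
    have hle : (k : ℝ) / 2 ^ s ≤ ((k : ℝ) + 1) / 2 ^ s := by gcongr; linarith
    have h2 : ∫ t in ((k : ℝ) / 2 ^ s)..(((k : ℝ) + 1) / 2 ^ s), f t = 0 := by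
      rw [intervalIntegral.integral_of_le hle, ← integral_Ico_eq_integral_Ioc]
      exact h0 k
    rw [h2, add_zero] at h1
    exact h1.symm
  induction k using Int.induction_on with
  | zero => simp [gPRI_F]
  | succ i ih =>
    have := hstep (i : ℤ)
    push_cast at this ih ⊢
    rw [this, ih]
  | pred i ih =>
    have := hstep (-(i : ℤ) - 1)
    push_cast at this ih ⊢
    rw [← this]
    rw [show (-(i : ℝ) - 1 + 1) = -(i : ℝ) by ring]
    exact ih

/-- Pointwise bound. -/
lemma gPRI_F_le {s : ℕ} {f : ℝ → ℝ} (hi : Integrable f volume) (hi2 : Integrable (fun x => f x ^ 2) volume) (h0 : ∀ k : ℤ, (∫ t in cell s k, f t) = 0) (k : ℤ) {z : ℝ}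
    (hz : z ∈ Set.Icc ((k : ℝ) / 2 ^ s) (((k : ℝ) + 1) / 2 ^ s)) : gPRI_F f z ^ 2 ≤ 1 / 2 ^ s * ∫ t in ((k : ℝ) / 2 ^ s)..(((k : ℝ) + 1) / 2 ^ s), f t ^ 2 := by
  have h1 : gPRI_F f ((k : ℝ) / 2 ^ s) + ∫ t in ((k : ℝ) / 2 ^ s)..z, f t = gPRI_F f z :=
    intervalIntegral.integral_add_adjacent_intervals hi.intervalIntegrable hi.intervalIntegrable
  rw [gPRI_F_grid hi h0 k, zero_add] at h1
  rw [← h1]
  have h2 := gPRI_cs (g := f) hz.1 hi.intervalIntegrable hi2.intervalIntegrable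
  have h3 : ∫ t in ((k : ℝ) / 2 ^ s)..z, f t ^ 2 ≤ ∫ t in ((k : ℝ) / 2 ^ s)..(((k : ℝ) + 1) / 2 ^ s), f t ^ 2 := by
    apply intervalIntegral.integral_mono_interval le_rfl hz.1 hz.2 (Eventually.of_forall fun x => sq_nonneg _) hi2.intervalIntegrable
  have h4 : z - (k : ℝ) / 2 ^ s ≤ 1 / 2 ^ s := by
    have : ((k : ℝ) + 1) / 2 ^ s = (k : ℝ) / 2 ^ s + 1 / 2 ^ s := by ring
    linarith [hz.2]
  have h5 : 0 ≤ ∫ t in ((k : ℝ) / 2 ^ s)..z, f t ^ 2 := intervalIntegral.integral_nonneg hz.1 (fun x _ => sq_nonneg _)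
  calc (∫ t in ((k : ℝ) / 2 ^ s)..z, f t) ^ 2 ≤ (z - (k : ℝ) / 2 ^ s) * ∫ t in ((k : ℝ) / 2 ^ s)..z, f t ^ 2 := h2
    _ ≤ 1 / 2 ^ s * ∫ t in ((k : ℝ) / 2 ^ s)..(((k : ℝ) + 1) / 2 ^ s), f t ^ 2 := mul_le_mul h4 h3 h5 (by positivity)

lemma gPRI_F_supp {s : ℕ} {f : ℝ → ℝ} (hi : Integrable f volume) (hS : Su f) (h0 : ∀ k : ℤ, (∫ t in cell s k, f t) = 0) (z : ℝ) (hz : z ∉ Set.Icc (0 : ℝ) 1) : gPRI_F f z = 0 := by
  have hz' : z < 0 ∨ 1 < z := by
    by_contra h
    push Not at h
    exact hz ⟨h.1, h.2⟩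
  rcases hz' with h | h
  · unfold gPRI_F
    rw [intervalIntegral.integral_symm]
    have : ∫ t in z..0, f t = ∫ t in z..0, (0 : ℝ) := by
      apply intervalIntegral.integral_congr
      intro t ht
      rw [Set.uIcc_of_le h.le] at ht
      exact hS t (fun hh => by linarith [hh.1, ht.2])
    rw [this]
    simp
  · have h1 : gPRI_F f 1 + ∫ t in (1 : ℝ)..z, f t = gPRI_F f z :=
      intervalIntegral.integral_add_adjacent_intervals hi.intervalIntegrable hi.intervalIntegrable
    have h2 : ∫ t in (1 : ℝ)..z, f t = ∫ t in (1 : ℝ)..z, (0 : ℝ) := by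
      apply intervalIntegral.integral_congr
      intro t ht
      rw [Set.uIcc_of_le h.le] at ht
      exact hS t (fun hh => by linarith [hh.2, ht.1])
    have h3 := gPRI_F_grid hi h0 (2 ^ s)
    have h4 : ((2 ^ s : ℤ) : ℝ) / 2 ^ s = 1 := by
      push_cast
      field_simp
    rw [h4] at h3
    rw [← h1, h2, h3]
    simp

/-- The `L^2` norm of the primitive. -/
lemma gPRI_F_nsq {s : ℕ} {f : ℝ → ℝ} (hi : Integrable f volume) (hi2 : Integrable (fun x => f x ^ 2) volume) (hS : Su f) (h0 : ∀ k : ℤ, (∫ t in cell s k, f t) = 0) :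
    nsq (gPRI_F f) ≤ 1 / (2 ^ s) ^ 2 * nsq f := by
  have hsup := gPRI_F_supp hi hS h0
  have hFc := gPRI_F_cont hi
  have e1 : nsq (gPRI_F f) = ∫ x in (0 : ℝ)..1, gPRI_F f x ^ 2 := by
    rw [intervalIntegral.integral_of_le zero_le_one, ← integral_Icc_eq_integral_Ioc]
    unfold nsq
    rw [setIntegral_eq_integral_of_forall_compl_eq_zero]
    intro x hx
    rw [hsup x hx]
    ring
  have e2 : nsq f = ∫ x in (0 : ℝ)..1, f x ^ 2 := by
    rw [intervalIntegral.integral_of_le zero_le_one, ← integral_Icc_eq_integral_Ioc]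
    unfold nsq
    rw [setIntegral_eq_integral_of_forall_compl_eq_zero]
    intro x hx
    rw [hS x (fun h => hx ⟨by linarith [h.1], by linarith [h.2]⟩)]
    ring
  have h2s : (0 : ℝ) < 2 ^ s := by positivity
  have e3 : ∀ g : ℝ → ℝ, (∀ a b : ℝ, IntervalIntegrable g volume a b) →
      ∑ k ∈ Finset.range (2 ^ s), ∫ x in ((k : ℝ) / 2 ^ s)..(((k : ℝ) + 1) / 2 ^ s), g x = ∫ x in (0 : ℝ)..1, g x := by
    intro g hg
    have h1 := intervalIntegral.sum_integral_adjacent_intervals (f := g) (μ := volume) (a := fun k : ℕ => (k : ℝ) / 2 ^ s) (n := 2 ^ s) (fun k _ => hg _ _)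
    simp only [Nat.cast_add, Nat.cast_one, Nat.cast_zero, zero_div, Nat.cast_pow, Nat.cast_ofNat] at h1
    rw [h1, div_self h2s.ne']
  rw [e1, e2, ← e3 (fun x => gPRI_F f x ^ 2) (fun a b => (hFc.pow 2).intervalIntegrable a b), ← e3 (fun x => f x ^ 2) (fun _ _ => hi2.intervalIntegrable), Finset.mul_sum]
  apply Finset.sum_le_sum
  intro k _
  have hle : (k : ℝ) / 2 ^ s ≤ ((k : ℝ) + 1) / 2 ^ s := by gcongr; linarith
  have h3 : ∀ z ∈ Set.Icc ((k : ℝ) / 2 ^ s) (((k : ℝ) + 1) / 2 ^ s), gPRI_F f z ^ 2 ≤ 1 / 2 ^ s * ∫ t in ((k : ℝ) / 2 ^ s)..(((k : ℝ) + 1) / 2 ^ s), f t ^ 2 := by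
    intro z hz
    have := gPRI_F_le hi hi2 h0 (k : ℤ) (z := z) (by simpa using hz)
    simpa using this
  calc ∫ x in ((k : ℝ) / 2 ^ s)..(((k : ℝ) + 1) / 2 ^ s), gPRI_F f x ^ 2
      ≤ ∫ x in ((k : ℝ) / 2 ^ s)..(((k : ℝ) + 1) / 2 ^ s), (1 / 2 ^ s * ∫ t in ((k : ℝ) / 2 ^ s)..(((k : ℝ) + 1) / 2 ^ s), f t ^ 2) :=
        intervalIntegral.integral_mono_on hle ((hFc.pow 2).intervalIntegrable _ _) intervalIntegrable_const h3
    _ = 1 / (2 ^ s) ^ 2 * ∫ x in ((k : ℝ) / 2 ^ s)..(((k : ℝ) + 1) / 2 ^ s), f x ^ 2 := by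
        rw [intervalIntegral.integral_const, smul_eq_mul]
        field_simp
        ring

/-- Integration by parts. -/
lemma gPRI_parts {s : ℕ} {f : ℝ → ℝ} (hf : PA s f) (hm : Measurable f) (hi : Integrable f volume) {p : ℝ → ℝ} (hp : ContDiff ℝ 2 p) (hmono : StrictMono p)
    (hd : ∀ x, 9 / 10 ≤ deriv p x) (hfp : MemLp (fun x => f (p x)) 2 volume) {a b : ℝ} (hab : a ≤ b) :
    ∫ t in a..b, f (p t) = gPRI_F f (p b) * (deriv p b)⁻¹ - gPRI_F f (p a) * (deriv p a)⁻¹ + ∫ t in a..b, gPRI_F f (p t) * (d2 p t / (deriv p t) ^ 2) := by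
  have hFc := gPRI_F_cont hi
  have hp1 : Differentiable ℝ p := hp.differentiable (by norm_num)
  have hp2 : ContDiff ℝ 1 (deriv p) := by
    have h : ContDiff ℝ (1 + 1) p := by
      rw [one_add_one_eq_two]
      exact hp
    exact ((contDiff_succ_iff_deriv (n := 1)).1 h).2.2
  have hp3 : Continuous (d2 p) := by
    have := (contDiff_one_iff_deriv).1 hp2
    exact this.2
  have hdc : Continuous (deriv p) := hp2.continuous
  have hpos : ∀ x, deriv p x ≠ 0 := fun x => by linarith [hd x]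
  have hint1 : IntervalIntegrable (fun t => f (p t)) volume a b := by
    rw [intervalIntegrable_iff_integrableOn_Ioc_of_le hab]
    exact (hfp.restrict _).integrable one_le_two
  have hc2 : Continuous (fun t => gPRI_F f (p t) * (d2 p t / (deriv p t) ^ 2)) :=
    (hFc.comp hp.continuous).mul (hp3.div (hdc.pow 2) (fun x => pow_ne_zero 2 (hpos x)))
  have key : ∫ t in a..b, (f (p t) - gPRI_F f (p t) * (d2 p t / (deriv p t) ^ 2)) = gPRI_F f (p b) * (deriv p b)⁻¹ - gPRI_F f (p a) * (deriv p a)⁻¹ := by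
    apply intervalIntegral.integral_eq_sub_of_hasDeriv_right (f := fun t => gPRI_F f (p t) * (deriv p t)⁻¹)
    · exact ((hFc.comp hp.continuous).mul (hdc.inv₀ hpos)).continuousOn
    · intro x _
      have h1 : HasDerivWithinAt (fun t => gPRI_F f (p t)) (f (p x) * deriv p x) (Set.Ioi x) x := by
        have h2 := gPRI_F_deriv hf hm hi (p x)
        exact h2.comp x (hp1 x).hasDerivAt.hasDerivWithinAt (fun t ht => hmono ht)
      have h3 : HasDerivWithinAt (fun t => (deriv p t)⁻¹) (-(d2 p x) / (deriv p x) ^ 2) (Set.Ioi x) x := by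
        have h4 : HasDerivAt (deriv p) (d2 p x) x := ((hp2.differentiable (by norm_num)) x).hasDerivAt
        exact (h4.inv (hpos x)).hasDerivWithinAt
      refine (h1.mul h3).congr_deriv ?_
      have h6 := hpos x
      field_simp
      ring
    · exact hint1.sub (hc2.intervalIntegrable _ _)
  rw [intervalIntegral.integral_sub hint1 (hc2.intervalIntegrable _ _)] at key
  linarith

/-- **gPRI**. -/
theorem gPRI (hNIB : gNIB_stmt) (hFNC : gFNC_stmt) (hESZ : gESZ_stmt) : gPRI_stmt := by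
  refine ⟨16, by norm_num, ?_⟩
  intro s τ P f hτ hτ1 hP hV
  obtain ⟨hPA, hS, hE⟩ := hV
  obtain ⟨hn1, hn2, hn3⟩ := hNIB P (1 / 1000) (by norm_num) hP
  have h0 : ∀ k : ℤ, (∫ t in cell s k, f t) = 0 := fun k => ((hESZ s f).1 hE k).1
  have hp := ev_contDiff P
  have hmono := ev_strictMono P
  have hd : ∀ x, 9 / 10 ≤ deriv (ev P) x := fun x => by
    have := (abs_le.1 (hn2 x)).1
    linarith
  have hNL : NL (ev P) := by
    intro x y hxy
    have h := hn3 y x
    rw [abs_of_nonneg (by linarith : (0 : ℝ) ≤ y - x), abs_le] at h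
    constructor
    · linarith [h.1]
    · linarith [h.2]
  obtain ⟨hm, -, -, hi, hM, hMp, -⟩ := hFNC (s + 1) f (ev P) hPA hS hNL
  have hi2 : Integrable (fun x => f x ^ 2) volume := hM.integrable_sq
  set F := gPRI_F f with hF
  have hFc : Continuous F := gPRI_F_cont hi
  have hsup := gPRI_F_supp hi hS h0
  have hnF := gPRI_F_nsq hi hi2 hS h0
  have hFs : HasCompactSupport F := HasCompactSupport.intro isCompact_Icc hsup
  have hout : ∀ x, x ∉ Set.Ioo (0 : ℝ) 1 → ev P x = x := fun x hx => ev_out P x hx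
  have hFps : ∀ x, x ∉ Set.Icc (0 : ℝ) 1 → F (ev P x) = 0 := by
    intro x hx
    have h1 : ev P x = x := hout x (fun h => hx ⟨h.1.le, h.2.le⟩)
    rw [h1]
    exact hsup x hx
  have hFpc : Continuous (fun x => F (ev P x)) := hFc.comp hp.continuous
  have hFpcs : HasCompactSupport (fun x => F (ev P x)) := HasCompactSupport.intro isCompact_Icc hFps
  have hsur : Function.Surjective (ev P) := fun x => ⟨ev P⁻¹ x, ev_inv' P x⟩
  have hcv := gPRI_cv (hp.differentiable (by norm_num)) hmono.injective hsur hd hFc hFs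
  have hi3 : Integrable (fun x => F (ev P x) ^ 2) volume := by
    have : HasCompactSupport (fun x => F (ev P x) ^ 2) := by
      have h3 := hFpcs.comp_left (g := fun t : ℝ => t ^ 2) (by simp)
      exact h3
    exact (hFpc.pow 2).integrable_of_hasCompactSupport this
  set N := nsq (fun x => F (ev P x)) with hN
  have hN0 : 0 ≤ N := integral_nonneg fun x => sq_nonneg _
  -- the pointwise bound
  have hw : ∀ x, |(deriv (ev P) x)⁻¹| ≤ 11 / 10 := by
    intro x
    have h1 : 999 / 1000 ≤ deriv (ev P) x := by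
      have := (abs_le.1 (hn2 x)).1
      linarith
    rw [abs_of_nonneg (inv_nonneg.2 (by linarith))]
    calc (deriv (ev P) x)⁻¹ ≤ (999 / 1000)⁻¹ := inv_anti₀ (by norm_num) h1
      _ ≤ 11 / 10 := by norm_num
  have hw' : ∀ x, |d2 (ev P) x / (deriv (ev P) x) ^ 2| ≤ 1 / 2 := by
    intro x
    have h1 : 999 / 1000 ≤ deriv (ev P) x := by
      have := (abs_le.1 (hn2 x)).1
      linarith
    rw [abs_div, abs_of_nonneg (sq_nonneg (deriv (ev P) x)), div_le_iff₀ (by positivity)]
    have h2 := hP x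
    nlinarith
  have hpt : ∀ y, ((1 / τ) * ∫ v in (0 : ℝ)..τ, f (ev P (y + v))) ^ 2 ≤
      3 / τ ^ 2 * (121 / 100 * F (ev P (y + τ)) ^ 2 + 121 / 100 * F (ev P y) ^ 2 + (Set.Icc (-1 : ℝ) 1).indicator (fun _ => N) y) := by
    intro y
    by_cases hy : y ∈ Set.Icc (-1 : ℝ) 1
    · rw [Set.indicator_of_mem hy]
      have h1 : ∫ v in (0 : ℝ)..τ, f (ev P (y + v)) = ∫ t in y..(y + τ), f (ev P t) := by
        rw [intervalIntegral.integral_comp_add_left (fun t => f (ev P t)) y, add_zero]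
      rw [h1, gPRI_parts hPA hm hi hp hmono hd hMp (by linarith : y ≤ y + τ)]
      set D := ∫ t in y..(y + τ), F (ev P t) * (d2 (ev P) t / (deriv (ev P) t) ^ 2) with hD
      have hD1 : |D| ≤ 1 / 2 * ∫ t in y..(y + τ), |F (ev P t)| := by
        rw [← intervalIntegral.integral_const_mul, ← Real.norm_eq_abs]
        apply intervalIntegral.norm_integral_le_of_norm_le (by linarith : y ≤ y + τ)
        · apply Eventually.of_forall
          intro t _
          rw [Real.norm_eq_abs, abs_mul, mul_comm]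
          exact mul_le_mul_of_nonneg_right (hw' t) (abs_nonneg _)
        · exact (hFpc.abs.const_mul _).intervalIntegrable _ _
      have hD2 : (∫ t in y..(y + τ), |F (ev P t)|) ^ 2 ≤ N := by
        have h2 := gPRI_cs (g := fun t => |F (ev P t)|) (by linarith : y ≤ y + τ) (hFpc.abs.intervalIntegrable _ _) ((hFpc.abs.pow 2).intervalIntegrable _ _)
        simp only [sq_abs] at h2
        have h3 : ∫ t in y..(y + τ), F (ev P t) ^ 2 ≤ N := by
          rw [intervalIntegral.integral_of_le (by linarith : y ≤ y + τ)]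
          exact setIntegral_le_integral hi3 (Eventually.of_forall fun x => sq_nonneg _)
        have h4 : 0 ≤ ∫ t in y..(y + τ), F (ev P t) ^ 2 := intervalIntegral.integral_nonneg (by linarith) (fun x _ => sq_nonneg _)
        nlinarith
      have hD3 : D ^ 2 ≤ 1 / 4 * N := by
        have h5 : 0 ≤ ∫ t in y..(y + τ), |F (ev P t)| := intervalIntegral.integral_nonneg (by linarith) (fun x _ => abs_nonneg _)
        rw [← sq_abs D]
        nlinarith [abs_nonneg D]
      have hA : (F (ev P (y + τ)) * (deriv (ev P) (y + τ))⁻¹) ^ 2 ≤ 121 / 100 * F (ev P (y + τ)) ^ 2 := by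
        rw [mul_pow, mul_comm]
        apply mul_le_mul_of_nonneg_right _ (sq_nonneg _)
        rw [← sq_abs]
        nlinarith [hw (y + τ), abs_nonneg (deriv (ev P) (y + τ))⁻¹]
      have hB : (F (ev P y) * (deriv (ev P) y)⁻¹) ^ 2 ≤ 121 / 100 * F (ev P y) ^ 2 := by
        rw [mul_pow, mul_comm]
        apply mul_le_mul_of_nonneg_right _ (sq_nonneg _)
        rw [← sq_abs]
        nlinarith [hw y, abs_nonneg (deriv (ev P) y)⁻¹]
      rw [mul_pow, one_div, inv_pow, div_mul_eq_mul_div, inv_mul_eq_div]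
      apply div_le_div_of_nonneg_right _ (by positivity)
      set A' := F (ev P (y + τ)) * (deriv (ev P) (y + τ))⁻¹
      set B' := F (ev P y) * (deriv (ev P) y)⁻¹
      nlinarith [sq_nonneg (A' + B'), sq_nonneg (A' - D), sq_nonneg (B' + D)]
    · rw [Set.indicator_of_notMem hy]
      have h1 : ∫ v in (0 : ℝ)..τ, f (ev P (y + v)) = ∫ v in (0 : ℝ)..τ, (0 : ℝ) := by
        apply intervalIntegral.integral_congr
        intro v hv
        rw [Set.uIcc_of_le hτ.le] at hv
        have h2 : y + v ∉ Set.Icc (0 : ℝ) 1 := by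
          intro h3
          apply hy
          constructor
          · linarith [h3.1, hv.2]
          · linarith [h3.2, hv.1]
        have h3 : ev P (y + v) = y + v := hout _ (fun h => h2 ⟨h.1.le, h.2.le⟩)
        show f (ev P (y + v)) = 0
        rw [h3]
        exact hS _ (fun h => h2 ⟨by linarith [h.1], by linarith [h.2]⟩)
      rw [h1]
      simp only [intervalIntegral.integral_const, smul_zero, mul_zero]
      rw [zero_pow two_ne_zero]
      positivity
  -- integrate
  have hi4 : Integrable (fun y => F (ev P (y + τ)) ^ 2) volume := hi3.comp_add_right τ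
  have hi5 : Integrable ((Set.Icc (-1 : ℝ) 1).indicator (fun _ => N)) volume := by
    apply IntegrableOn.integrable_indicator _ measurableSet_Icc
    exact integrableOn_const (by simp)
  have hint : nsq (fun y => (1 / τ) * ∫ v in (0 : ℝ)..τ, f (ev P (y + v))) ≤ 3 / τ ^ 2 * (121 / 100 * N + 121 / 100 * N + 2 * N) := by
    unfold nsq
    calc ∫ y, ((1 / τ) * ∫ v in (0 : ℝ)..τ, f (ev P (y + v))) ^ 2
        ≤ ∫ y, 3 / τ ^ 2 * (121 / 100 * F (ev P (y + τ)) ^ 2 + 121 / 100 * F (ev P y) ^ 2 + (Set.Icc (-1 : ℝ) 1).indicator (fun _ => N) y) := by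
          apply integral_mono_of_nonneg (Eventually.of_forall fun x => sq_nonneg _) _ (Eventually.of_forall hpt)
          exact (((hi4.const_mul _).add (hi3.const_mul _)).add hi5).const_mul _
      _ = 3 / τ ^ 2 * (121 / 100 * N + 121 / 100 * N + 2 * N) := by
          have a1 : ∫ y, (121 / 100 * F (ev P (y + τ)) ^ 2 + 121 / 100 * F (ev P y) ^ 2 + (Set.Icc (-1 : ℝ) 1).indicator (fun _ => N) y) =
              (∫ y, (121 / 100 * F (ev P (y + τ)) ^ 2 + 121 / 100 * F (ev P y) ^ 2)) + ∫ y, (Set.Icc (-1 : ℝ) 1).indicator (fun _ => N) y :=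
            integral_add ((hi4.const_mul _).add (hi3.const_mul _)) hi5
          have a2 : ∫ y, (121 / 100 * F (ev P (y + τ)) ^ 2 + 121 / 100 * F (ev P y) ^ 2) =
              (∫ y, 121 / 100 * F (ev P (y + τ)) ^ 2) + ∫ y, 121 / 100 * F (ev P y) ^ 2 :=
            integral_add (hi4.const_mul _) (hi3.const_mul _)
          rw [integral_const_mul, a1, a2, integral_const_mul, integral_const_mul, integral_indicator measurableSet_Icc]
          have h6 : ∫ y, F (ev P (y + τ)) ^ 2 = N := integral_add_right_eq_self (fun y => F (ev P y) ^ 2) τ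
          have h7 : ∫ y, F (ev P y) ^ 2 = N := rfl
          have h8 : ∫ _ in Set.Icc (-1 : ℝ) 1, N = 2 * N := by
            rw [setIntegral_const]
            simp
            norm_num
          rw [h6, h7, h8]
  have hnf : 0 ≤ nsq f := integral_nonneg fun x => sq_nonneg _
  have h9 : N ≤ 10 / 9 * (1 / (2 ^ s) ^ 2 * nsq f) := le_trans hcv (by nlinarith)
  calc nsq (fun y => (1 / τ) * ∫ v in (0 : ℝ)..τ, f (ev P (y + v))) ≤ 3 / τ ^ 2 * (121 / 100 * N + 121 / 100 * N + 2 * N) := hint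
    _ = 1326 / 100 / τ ^ 2 * N := by ring
    _ ≤ 1326 / 100 / τ ^ 2 * (10 / 9 * (1 / (2 ^ s) ^ 2 * nsq f)) := mul_le_mul_of_nonneg_left h9 (by positivity)
    _ = 13260 / 900 / (2 ^ s * τ) ^ 2 * nsq f := by
        field_simp
        ring
    _ ≤ 16 / (2 ^ s * τ) ^ 2 * nsq f := by
        apply mul_le_mul_of_nonneg_right _ hnf
        apply div_le_div_of_nonneg_right _ (by positivity)
        norm_num

end Pool.Agent.helper90.DH
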